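import Pool.Agent.Q19.ExtD

set_option autoImplicit false

open Pool.Agent.Q19.Ext

namespace Pool.Agent.Results.MP_8e2340_co.RigidMotions

/-- The distinguishing extension number of the plane under the group `SE(2)` of orientation
preserving isometries is `4` (and the distinguishing number is `2`). -/
theorem result : distNum SE2 Plane = 2 ∧ extNum SE2 Plane = 4 :=
  ⟨distNum_SE2, extNum_SE2⟩

end Pool.Agent.Results.MP_8e2340_co.RigidMotions
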